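import Mathlib
import Pool.Agent.KS6_71.PG.Main

set_option autoImplicit false

/-!
# Cosets of centralizers of central involutions: almost all of them can fail, to any depth

The question (MP_d5772f_al, Q1) asks whether, for a finite group `G`, a Sylow `2`-subgroup `T` of `G`
and an involution `t ∈ Z(T)`, every coset `g C_G(t)` contains an element of odd order. The answer is
no in a strong sense: for every `n` and every `ε > 0` there are `G`, `T`, `t` with `C_G(t) = T`
(so that `C_G(t)` is as small as it can be) such that for all but at most `ε |G|` elements `g` of `G`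
EVERY element of the coset `g C_G(t)` has order divisible by `2 ^ n`.

Proof. `PG/Base.lean` contains a coset of a Sylow `2`-subgroup of `GL₂(𝔽₃₇)` without elements of odd
order. If all the elements of a coset of a Sylow `2`-subgroup of `H` (of `K`) have order divisible by
`2 ^ n` (by `2`), then there is such a coset with `2 ^ (n + 1)` in the wreath product of `H` and `K`.
Hence there is such a coset for every `n`; in a large power of the group almost every coset is of
this kind. Finally the permutation module over `𝔽₂` on the cosets of the Sylow `2`-subgroup turns the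
Sylow `2`-subgroup into the centralizer of a central involution.
-/

namespace Pool.Agent.Results.MP_d5772f_al.AlmostAllCosets

open Pool.Agent.KS6_71.PG

theorem result (n : ℕ) (ε : ℝ) (hε : 0 < ε) :
    ∃ (G : Type) (_ : Group G) (_ : Finite G) (T : Sylow 2 G) (t : G),
      orderOf t = 2 ∧
      t ∈ (T : Subgroup G) ∧ (∀ x ∈ (T : Subgroup G), x * t = t * x) ∧
      Subgroup.centralizer ({t} : Set G) = (T : Subgroup G) ∧
      (1 - ε) * (Nat.card G : ℝ) ≤
        (Nat.card {g : G // ∀ c ∈ Subgroup.centralizer ({t} : Set G), 2 ^ n ∣ orderOf (g * c)} : ℝ) := by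
  obtain ⟨H, _, _, S, hS, hcard⟩ := exists_many n ε hε
  obtain ⟨G, _, _, T, t, r, B, -, ⟨e, he⟩, ht, hcen, hT⟩ := transfer S hS
  have htT : t ∈ (T : Subgroup G) := by
    rw [← hcen, Subgroup.mem_centralizer_singleton_iff]
  refine ⟨G, inferInstance, inferInstance, T, t, ht, htT, ?_, hcen, ?_⟩
  · intro x hx
    rw [← hcen, Subgroup.mem_centralizer_singleton_iff] at hx
    exact hx
  · have hB : Finite B := by
      have : Finite (B × H) := Finite.of_equiv G e
      exact Finite.of_injective (fun b : B => ((b, 1) : B × H)) (fun a b h => (Prod.mk.inj h).1)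
    have h1 : Nat.card G = Nat.card B * Nat.card H := by
      rw [Nat.card_congr e, Nat.card_prod]
    have h2 : Nat.card B * Nat.card {h : H // AllDvd n S h} ≤
        Nat.card {g : G // ∀ c ∈ Subgroup.centralizer ({t} : Set G), 2 ^ n ∣ orderOf (g * c)} := by
      rw [← Nat.card_prod]
      apply Nat.card_le_card_of_injective (fun x : B × {h : H // AllDvd n S h} =>
        (⟨e.symm (x.1, x.2.1), fun c hc => by
          have h3 : r (e.symm (x.1, x.2.1)) = x.2.1 := by
            rw [← he, e.apply_symm_apply]
          have h4 : r c ∈ S := by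
            rw [hcen, hT] at hc
            exact hc
          have h5 := x.2.2 (r c) h4
          refine h5.trans ?_
          have h6 := orderOf_map_dvd r (e.symm (x.1, x.2.1) * c)
          rw [map_mul, h3] at h6
          exact h6⟩ :
          {g : G // ∀ c ∈ Subgroup.centralizer ({t} : Set G), 2 ^ n ∣ orderOf (g * c)}))
      rintro ⟨b, ⟨h, hh⟩⟩ ⟨b', ⟨h', hh'⟩⟩ hxy
      have h3 := e.symm.injective (congrArg Subtype.val hxy)
      simp only [Prod.mk.injEq] at h3
      obtain ⟨rfl, rfl⟩ := h3
      rfl
    have h3 : (Nat.card B : ℝ) * (Nat.card {h : H // AllDvd n S h} : ℝ) ≤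
        (Nat.card {g : G // ∀ c ∈ Subgroup.centralizer ({t} : Set G),
          2 ^ n ∣ orderOf (g * c)} : ℝ) := by
      exact_mod_cast h2
    refine le_trans ?_ h3
    rw [h1]
    push_cast
    have h4 : (0 : ℝ) ≤ Nat.card B := Nat.cast_nonneg _
    nlinarith [mul_le_mul_of_nonneg_left hcard h4]

end Pool.Agent.Results.MP_d5772f_al.AlmostAllCosets
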